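import Pool.Agent.N260.TF.Fin

/-!
Existence of a symmetric zero contact angle extinction profile for the thin film equation with
constant absorption.
-/

set_option autoImplicit false

open Set Filter Topology

namespace Pool.Agent.Results.MP_db815f_an.Existence

/-- `(ξ₀, g)` is an admissible profile: `g` is `C⁴` and positive on `[0, ξ₀)`, solves
`-(g g''')' - ξ g' / 2 + g - 1 = 0` there, `g'(0) = g'''(0) = 0`, and `g`, `g'`, `g g'''` tend to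
zero at the interface `ξ₀`. -/
structure AdmissibleProfile (ξ₀ : ℝ) (g : ℝ → ℝ) : Prop where
  pos_end : 0 < ξ₀
  smooth : ContDiffOn ℝ 4 g (Ico 0 ξ₀)
  pos : ∀ ξ ∈ Ico 0 ξ₀, 0 < g ξ
  ode : ∀ ξ ∈ Ico 0 ξ₀,
    - derivWithin (fun η => g η * iteratedDerivWithin 3 g (Ico 0 ξ₀) η) (Ico 0 ξ₀) ξ
      - 1 / 2 * ξ * derivWithin g (Ico 0 ξ₀) ξ + g ξ - 1 = 0
  deriv_zero : derivWithin g (Ico 0 ξ₀) 0 = 0
  third_zero : iteratedDerivWithin 3 g (Ico 0 ξ₀) 0 = 0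
  height : Tendsto g (𝓝[<] ξ₀) (𝓝 0)
  angle : Tendsto (derivWithin g (Ico 0 ξ₀)) (𝓝[<] ξ₀) (𝓝 0)
  flux : Tendsto (fun η => g η * iteratedDerivWithin 3 g (Ico 0 ξ₀) η) (𝓝[<] ξ₀) (𝓝 0)

theorem cd_succ {S : Set ℝ} (hS : IsOpen S) {f f1 : ℝ → ℝ} {n : ℕ}
    (h : ∀ x ∈ S, HasDerivAt f (f1 x) x) (h1 : ContDiffOn ℝ n f1 S) :
    ContDiffOn ℝ (n + 1 : ℕ) f S := by
  push_cast
  rw [contDiffOn_succ_iff_deriv_of_isOpen hS]
  refine ⟨fun x hx => (h x hx).differentiableAt.differentiableWithinAt, by simp, ?_⟩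
  exact h1.congr fun x hx => (h x hx).deriv

/-- There is an admissible profile; moreover it can be chosen as the restriction of an even `C⁴`
function on `(-ξ₀, ξ₀)` whose third derivative is positive on `(0, ξ₀)`. -/
theorem result : ∃ (ξ₀ : ℝ) (g : ℝ → ℝ), AdmissibleProfile ξ₀ g ∧ (∀ ξ, g (-ξ) = g ξ) ∧
    ContDiffOn ℝ 4 g (Ioo (-ξ₀) ξ₀) ∧
    ∀ ξ ∈ Ioo 0 ξ₀, 0 < iteratedDerivWithin 3 g (Ico 0 ξ₀) ξ := by
  obtain ⟨x0, g, g1, g2, g3, g4, hx0, heven, hch, hc4, h10, h30, hpos3, l0, l1, lF⟩ :=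
    Pool.Agent.N260.TF.exists_chain
  have hsub : Ico 0 x0 ⊆ Ioo (-x0) x0 := fun x hx => ⟨by linarith [hx.1], hx.2⟩
  have hO : IsOpen (Ioo (-x0) x0) := isOpen_Ioo
  have c4 : ContDiffOn ℝ (0 : ℕ) g4 (Ioo (-x0) x0) := by
    have : ContDiffOn ℝ 0 g4 (Ioo (-x0) x0) := contDiffOn_zero.2 hc4
    exact_mod_cast this
  have c3 := cd_succ hO (fun x hx => (hch x hx).2.2.2.2.1) c4
  have c2 := cd_succ hO (fun x hx => (hch x hx).2.2.2.1) c3
  have c1 := cd_succ hO (fun x hx => (hch x hx).2.2.1) c2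
  have c0 := cd_succ hO (fun x hx => (hch x hx).2.1) c1
  have c : ContDiffOn ℝ 4 g (Ioo (-x0) x0) := by exact_mod_cast c0
  have hu : UniqueDiffOn ℝ (Ico 0 x0) := uniqueDiffOn_Ico 0 x0
  have hd : ∀ {f f1 : ℝ → ℝ} {x : ℝ}, HasDerivAt f (f1 x) x → x ∈ Ico 0 x0 →
      derivWithin f (Ico 0 x0) x = f1 x := fun h hx => h.hasDerivWithinAt.derivWithin (hu _ hx)
  have e1 : EqOn (derivWithin g (Ico 0 x0)) g1 (Ico 0 x0) := fun x hx =>
    hd (hch x (hsub hx)).2.1 hx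
  have e2 : EqOn (iteratedDerivWithin 2 g (Ico 0 x0)) g2 (Ico 0 x0) := by
    intro x hx
    rw [iteratedDerivWithin_succ, iteratedDerivWithin_one, derivWithin_congr e1 (e1 hx)]
    exact hd (hch x (hsub hx)).2.2.1 hx
  have e3 : EqOn (iteratedDerivWithin 3 g (Ico 0 x0)) g3 (Ico 0 x0) := by
    intro x hx
    rw [iteratedDerivWithin_succ, derivWithin_congr e2 (e2 hx)]
    exact hd (hch x (hsub hx)).2.2.2.1 hx
  have e4 : EqOn (fun η => g η * iteratedDerivWithin 3 g (Ico 0 x0) η) (fun η => g η * g3 η)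
      (Ico 0 x0) := by
    intro x hx
    simp only
    rw [e3 hx]
  have h0 : (0:ℝ) ∈ Ico 0 x0 := ⟨le_rfl, hx0⟩
  have hev : ∀ᶠ y in 𝓝[<] x0, y ∈ Ico 0 x0 := by
    filter_upwards [Ioo_mem_nhdsLT hx0] with y hy
    exact ⟨hy.1.le, hy.2⟩
  refine ⟨x0, g, ⟨hx0, c.mono hsub, fun x hx => (hch x (hsub hx)).1, ?_, ?_, ?_, l0, ?_, ?_⟩,
    heven, c, ?_⟩
  · intro x hx
    have h1 : derivWithin (fun η => g η * iteratedDerivWithin 3 g (Ico 0 x0) η) (Ico 0 x0) x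
        = g x - x / 2 * g1 x - 1 := by
      rw [derivWithin_congr e4 (e4 hx)]
      exact (hch x (hsub hx)).2.2.2.2.2.hasDerivWithinAt.derivWithin (hu _ hx)
    rw [h1, e1 hx]
    ring
  · rw [e1 h0, h10]
  · rw [e3 h0, h30]
  · refine l1.congr' ?_
    filter_upwards [hev] with y hy
    exact (e1 hy).symm
  · refine lF.congr' ?_
    filter_upwards [hev] with y hy
    rw [e3 hy]
  · intro x hx
    rw [e3 ⟨hx.1.le, hx.2⟩]
    exact hpos3 x hx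

end Pool.Agent.Results.MP_db815f_an.Existence
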